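import Pool.Agent.Helper38.ND.Goals
import Pool.Agent.Helper17.PP.Parts

/-!
# Project ND (MP_fc6b1e_nt), packet W_MT1: the abstract moment theorem with weights
-/

namespace Pool.Agent.Helper91.ND

open Finset Pool.Agent.Helper17.PP Pool.Agent.Helper17.PP0 Pool.Agent.Helper38.ND

theorem ite_nn {c : Prop} [Decidable c] {x : ℝ} (h : 0 ≤ x) : 0 ≤ (if c then x else 0) := by
  split_ifs
  · exact h
  · exact le_rfl

section steps

variable {p : ℕ} [Fact p.Prime] {B B₀ k U Λ C : Type} [Field k] [Fintype k]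
    [Algebra (ZMod p) k] [AddCommGroup U] [Module k U] [Fintype U] [AddCommGroup Λ] [Module k Λ]
    [Fintype Λ] [AddCommGroup C] (S : Sys p B B₀ k U Λ C)

open Classical in
theorem step1w (hCNT : C_CNT) (E j₀ s : ℕ) (hs : j₀ ≤ s) (W : Finset B → ℝ)
    (hW : ∀ b, 0 ≤ W b) (P : Finset B) :
    ∑ b ∈ P.powerset with (S.Fam b ∧ S.Bad b), W b ≤
      ∑ b ∈ P.powerset with (∃ q ∈ b, th E s < S.bl q), W b +
      ∑ b ∈ P.powerset with (S.Fam b ∧ ∃ (x : U) (c : B → k), S.IsSol b x c ∧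
        ¬ (x = 0 ∧ c = 0) ∧ ∀ q, c q ≠ 0 → S.bl q < j₀), W b +
      ∑ b ∈ P.powerset with (∃ q ∈ b, ∃ q' ∈ b, q ≠ q' ∧ S.bl q = S.bl q' ∧ j₀ ≤ S.bl q),
        W b +
      ∑ b ∈ P.powerset with (∀ q ∈ b, ¬ S.spl q → S.bl q < s), W b +
      ∑ b ∈ P.powerset with (∃ q ∈ b, j₀ ≤ S.bl q ∧ ∃ D ⊆ b, q ∉ D ∧
        (∀ q' ∈ D, S.bl q' ≤ th E (S.bl q)) ∧ 2 ^ tb E (S.bl q) ≤ S.nm D),
        W b +
      ∑ b ∈ (P.filter fun q ↦ S.bl q ≤ th E s).powerset with (S.Fam b ∧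
        (∃ P₁, S.Top b P₁ ∧ s ≤ S.bl P₁) ∧
        ∃ q, S.Wt E b q ∧ j₀ ≤ S.bl q ∧ Fintype.card k - 1 ≤ S.cnt₂ E b q),
        W b := by
  have hlast : ∑ b ∈ (P.filter fun q ↦ S.bl q ≤ th E s).powerset with (S.Fam b ∧
        (∃ P₁, S.Top b P₁ ∧ s ≤ S.bl P₁) ∧
        ∃ q, S.Wt E b q ∧ j₀ ≤ S.bl q ∧ Fintype.card k - 1 ≤ S.cnt₂ E b q),
        W b =
      ∑ b ∈ P.powerset with ((∀ q ∈ b, S.bl q ≤ th E s) ∧ (S.Fam b ∧
        (∃ P₁, S.Top b P₁ ∧ s ≤ S.bl P₁) ∧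
        ∃ q, S.Wt E b q ∧ j₀ ≤ S.bl q ∧ Fintype.card k - 1 ≤ S.cnt₂ E b q)),
        W b := by
    refine Finset.sum_congr ?_ fun _ _ ↦ rfl
    ext b
    simp only [mem_filter, mem_powerset]
    constructor
    · rintro ⟨h1, h2⟩
      exact ⟨fun q hq ↦ (mem_filter.1 (h1 hq)).1, fun q hq ↦ (mem_filter.1 (h1 hq)).2, h2⟩
    · rintro ⟨h1, h2, h3⟩
      exact ⟨fun q hq ↦ mem_filter.2 ⟨h1 hq, h2 q hq⟩, h3⟩
  rw [hlast]
  simp only [Finset.sum_filter, ← Finset.sum_add_distrib]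
  refine Finset.sum_le_sum fun b hb ↦ ?_
  have he : 0 ≤ W b := hW b
  by_cases hA : S.Fam b ∧ S.Bad b
  swap
  · rw [if_neg hA]
    repeat apply add_nonneg
    all_goals exact ite_nn he
  rw [if_pos hA]
  by_cases h6 : ∃ q ∈ b, th E s < S.bl q
  · rw [if_pos h6]
    have : 0 ≤ (if S.Fam b ∧ ∃ (x : U) (c : B → k), S.IsSol b x c ∧
        ¬ (x = 0 ∧ c = 0) ∧ ∀ q, c q ≠ 0 → S.bl q < j₀ then W b else 0) := ite_nn he
    have : 0 ≤ (if (∃ q ∈ b, ∃ q' ∈ b, q ≠ q' ∧ S.bl q = S.bl q' ∧ j₀ ≤ S.bl q) then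
      W b else 0) := ite_nn he
    have : 0 ≤ (if (∀ q ∈ b, ¬ S.spl q → S.bl q < s) then
      W b else 0) := ite_nn he
    have : 0 ≤ (if (∃ q ∈ b, j₀ ≤ S.bl q ∧ ∃ D ⊆ b, q ∉ D ∧
        (∀ q' ∈ D, S.bl q' ≤ th E (S.bl q)) ∧ 2 ^ tb E (S.bl q) ≤ S.nm D) then
      W b else 0) := ite_nn he
    have : 0 ≤ (if ((∀ q ∈ b, S.bl q ≤ th E s) ∧ (S.Fam b ∧
        (∃ P₁, S.Top b P₁ ∧ s ≤ S.bl P₁) ∧
        ∃ q, S.Wt E b q ∧ j₀ ≤ S.bl q ∧ Fintype.card k - 1 ≤ S.cnt₂ E b q)) then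
      W b else 0) := ite_nn he
    linarith
  rw [if_neg h6]
  by_cases h0 : S.Fam b ∧ ∃ (x : U) (c : B → k), S.IsSol b x c ∧
        ¬ (x = 0 ∧ c = 0) ∧ ∀ q, c q ≠ 0 → S.bl q < j₀
  · rw [if_pos h0]
    have : 0 ≤ (if (∃ q ∈ b, ∃ q' ∈ b, q ≠ q' ∧ S.bl q = S.bl q' ∧ j₀ ≤ S.bl q) then
      W b else 0) := ite_nn he
    have : 0 ≤ (if (∀ q ∈ b, ¬ S.spl q → S.bl q < s) then
      W b else 0) := ite_nn he
    have : 0 ≤ (if (∃ q ∈ b, j₀ ≤ S.bl q ∧ ∃ D ⊆ b, q ∉ D ∧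
        (∀ q' ∈ D, S.bl q' ≤ th E (S.bl q)) ∧ 2 ^ tb E (S.bl q) ≤ S.nm D) then
      W b else 0) := ite_nn he
    have : 0 ≤ (if ((∀ q ∈ b, S.bl q ≤ th E s) ∧ (S.Fam b ∧
        (∃ P₁, S.Top b P₁ ∧ s ≤ S.bl P₁) ∧
        ∃ q, S.Wt E b q ∧ j₀ ≤ S.bl q ∧ Fintype.card k - 1 ≤ S.cnt₂ E b q)) then
      W b else 0) := ite_nn he
    linarith
  rw [if_neg h0]
  by_cases h2 : ∃ q ∈ b, ∃ q' ∈ b, q ≠ q' ∧ S.bl q = S.bl q' ∧ j₀ ≤ S.bl q
  · rw [if_pos h2]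
    have : 0 ≤ (if (∀ q ∈ b, ¬ S.spl q → S.bl q < s) then
      W b else 0) := ite_nn he
    have : 0 ≤ (if (∃ q ∈ b, j₀ ≤ S.bl q ∧ ∃ D ⊆ b, q ∉ D ∧
        (∀ q' ∈ D, S.bl q' ≤ th E (S.bl q)) ∧ 2 ^ tb E (S.bl q) ≤ S.nm D) then
      W b else 0) := ite_nn he
    have : 0 ≤ (if ((∀ q ∈ b, S.bl q ≤ th E s) ∧ (S.Fam b ∧
        (∃ P₁, S.Top b P₁ ∧ s ≤ S.bl P₁) ∧
        ∃ q, S.Wt E b q ∧ j₀ ≤ S.bl q ∧ Fintype.card k - 1 ≤ S.cnt₂ E b q)) then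
      W b else 0) := ite_nn he
    linarith
  rw [if_neg h2]
  by_cases h3 : ∀ q ∈ b, ¬ S.spl q → S.bl q < s
  · rw [if_pos h3]
    have : 0 ≤ (if (∃ q ∈ b, j₀ ≤ S.bl q ∧ ∃ D ⊆ b, q ∉ D ∧
        (∀ q' ∈ D, S.bl q' ≤ th E (S.bl q)) ∧ 2 ^ tb E (S.bl q) ≤ S.nm D) then
      W b else 0) := ite_nn he
    have : 0 ≤ (if ((∀ q ∈ b, S.bl q ≤ th E s) ∧ (S.Fam b ∧
        (∃ P₁, S.Top b P₁ ∧ s ≤ S.bl P₁) ∧
        ∃ q, S.Wt E b q ∧ j₀ ≤ S.bl q ∧ Fintype.card k - 1 ≤ S.cnt₂ E b q)) then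
      W b else 0) := ite_nn he
    linarith
  rw [if_neg h3]
  by_cases h5 : ∃ q ∈ b, j₀ ≤ S.bl q ∧ ∃ D ⊆ b, q ∉ D ∧
        (∀ q' ∈ D, S.bl q' ≤ th E (S.bl q)) ∧ 2 ^ tb E (S.bl q) ≤ S.nm D
  · rw [if_pos h5]
    have : 0 ≤ (if ((∀ q ∈ b, S.bl q ≤ th E s) ∧ (S.Fam b ∧
        (∃ P₁, S.Top b P₁ ∧ s ≤ S.bl P₁) ∧
        ∃ q, S.Wt E b q ∧ j₀ ≤ S.bl q ∧ Fintype.card k - 1 ≤ S.cnt₂ E b q)) then
      W b else 0) := ite_nn he
    linarith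
  rw [if_neg h5, if_pos]
  · linarith
  refine ⟨fun q hq ↦ not_lt.1 fun h ↦ h6 ⟨q, hq, h⟩, hA.1, ?_, ?_⟩
  · refine S.exists_top s b (fun q hq q' hq' hne he ↦ ?_) h3
    by_contra hh
    exact h2 ⟨q, hq, q', hq', hne, he, by omega⟩
  · refine hCNT p B B₀ k U Λ C S E j₀ b hA.2 (fun x c hx hne ↦ ?_) fun q hq hqs hqb ↦ ?_
    · by_contra hh
      push Not at hh
      exact h0 ⟨hA.1, x, c, hx, hne, fun q hq ↦ hh q hq⟩
    · refine ⟨hq, hqs, fun q' hq' hne _ he ↦ h2 ⟨q, hq, q', hq', Ne.symm hne, he.symm, hqb⟩,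
        fun D hD hqD hDb ↦ ?_⟩
      by_contra hh
      exact h5 ⟨q, hq, hqb, D, hD, hqD, hDb, not_lt.1 hh⟩

open Classical in
/-- The sum of `cnt` over one block. -/
noncomputable def T1v (E : ℕ) (P : Finset B) (W : Finset B → ℝ) (j : ℕ) : ℝ :=
  ∑ b ∈ P.powerset with S.Fam b, ∑ q ∈ b with (S.Wt E b q ∧ S.bl q = j),
      (S.cnt E b q : ℝ) * W b

open Classical in
/-- The oscillating sum for two blocks. -/
noncomputable def O1v (ψ : AddChar k ℂ) (ψ₁ : AddChar (ZMod p) ℂ) (E : ℕ) (P : Finset B)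
    (W : Finset B → ℝ) (i j : ℕ) (s : ZMod p) : ℂ :=
  ∑ b ∈ P.powerset with S.Fam b, ∑ q ∈ b with (S.Wt E b q ∧ S.bl q = j),
      ∑ _P₁ ∈ b with (S.Top b _P₁ ∧ S.bl _P₁ = i),
        S.osc ψ ψ₁ E P b q s * (W b : ℂ)

open Classical in
theorem step4w (hOSC : C_OSC) (ψ : AddChar k ℂ) (ψ₁ : AddChar (ZMod p) ℂ) (hψ : ψ ≠ 1)
    (hψ₁ : ψ₁ ≠ 1) (E j₀ s : ℕ) (P : Finset B)
    (W : Finset B → ℝ) (hW : ∀ b, 0 ≤ W b)
    (hP : ∀ q ∈ P, S.bl q ≤ th E s) (hth : ∀ j, s ≤ j → j ≤ th E j) (hj₀ : j₀ ≤ s) :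
    ((Fintype.card k : ℝ) - 1) * ∑ b ∈ P.powerset with (S.Fam b ∧
        (∃ P₁, S.Top b P₁ ∧ s ≤ S.bl P₁) ∧
        ∃ q, S.Wt E b q ∧ j₀ ≤ S.bl q ∧ Fintype.card k - 1 ≤ S.cnt₂ E b q),
        W b ≤
      ∑ j ∈ Ico j₀ s, T1v S E P W j + (1 / p : ℝ) * ∑ j ∈ Ico s (th E s + 1), T1v S E P W j +
      (1 / p : ℝ) * ∑ s' ∈ (univ : Finset (ZMod p)).erase 0, ∑ i ∈ Ico s (th E s + 1),
        ∑ j ∈ Ico s (th E s + 1), ‖O1v S ψ ψ₁ E P W i j s'‖ := by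
  -- the sum over all `b` in the family of the bound
  have hA : ((Fintype.card k : ℝ) - 1) * ∑ b ∈ P.powerset with (S.Fam b ∧
        (∃ P₁, S.Top b P₁ ∧ s ≤ S.bl P₁) ∧
        ∃ q, S.Wt E b q ∧ j₀ ≤ S.bl q ∧ Fintype.card k - 1 ≤ S.cnt₂ E b q),
        W b ≤
      ∑ b ∈ P.powerset with S.Fam b,
        (∑ q ∈ b with (S.Wt E b q ∧ j₀ ≤ S.bl q ∧ S.bl q < s), (S.cnt E b q : ℝ) +
        ∑ q ∈ b with (S.Wt E b q ∧ s ≤ S.bl q), ∑ _P₁ ∈ b with (S.Top b _P₁ ∧ s ≤ S.bl _P₁),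
          (S.cnt₂ E b q : ℝ)) * W b := by
    rw [Finset.mul_sum]
    refine (Finset.sum_le_sum fun b hb ↦ ?_).trans (Finset.sum_le_sum_of_subset_of_nonneg
      (s := P.powerset.filter fun b ↦ (S.Fam b ∧
        (∃ P₁, S.Top b P₁ ∧ s ≤ S.bl P₁) ∧
        ∃ q, S.Wt E b q ∧ j₀ ≤ S.bl q ∧ Fintype.card k - 1 ≤ S.cnt₂ E b q)) ?_ ?_)
    · rw [mem_filter] at hb
      exact mul_le_mul_of_nonneg_right (step2 (Λ := Λ) S E j₀ s b hb.2.2.1 hb.2.2.2)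
        (hW b)
    · intro b hb
      rw [mem_filter] at hb ⊢
      exact ⟨hb.1, hb.2.1⟩
    · intro b _ _
      exact mul_nonneg (by positivity) (hW b)
  have hB : ∀ b ∈ P.powerset.filter fun b ↦ S.Fam b,
      (∑ q ∈ b with (S.Wt E b q ∧ j₀ ≤ S.bl q ∧ S.bl q < s), (S.cnt E b q : ℝ) +
        ∑ q ∈ b with (S.Wt E b q ∧ s ≤ S.bl q), ∑ _P₁ ∈ b with (S.Top b _P₁ ∧ s ≤ S.bl _P₁),
          (S.cnt₂ E b q : ℝ)) * W b ≤
      ∑ j ∈ Ico j₀ s, ∑ q ∈ b with (S.Wt E b q ∧ S.bl q = j),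
        (S.cnt E b q : ℝ) * W b +
      (1 / p : ℝ) * ∑ j ∈ Ico s (th E s + 1), ∑ q ∈ b with (S.Wt E b q ∧ S.bl q = j),
        (S.cnt E b q : ℝ) * W b +
      (1 / p : ℝ) * ∑ s' ∈ (univ : Finset (ZMod p)).erase 0, ∑ i ∈ Ico s (th E s + 1),
        ∑ j ∈ Ico s (th E s + 1), (∑ q ∈ b with (S.Wt E b q ∧ S.bl q = j),
          ∑ _P₁ ∈ b with (S.Top b _P₁ ∧ S.bl _P₁ = i),
            S.osc ψ ψ₁ E P b q s' * (W b : ℂ)).re := by
    intro b hb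
    rw [mem_filter, mem_powerset] at hb
    have h3 := step3 (Λ := Λ) S hOSC ψ ψ₁ hψ hψ₁ E s P b hb.1 hth
    have he : 0 ≤ W b := (hW b)
    have hbl : ∀ q ∈ b, S.bl q < th E s + 1 := fun q hq ↦ Nat.lt_succ_of_le (hP q (hb.1 hq))
    -- rewrite the block sums
    have e1 : ∑ j ∈ Ico j₀ s, ∑ q ∈ b with (S.Wt E b q ∧ S.bl q = j),
        (S.cnt E b q : ℝ) * W b =
        (∑ q ∈ b with (S.Wt E b q ∧ j₀ ≤ S.bl q ∧ S.bl q < s), (S.cnt E b q : ℝ)) *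
          W b := by
      rw [Finset.sum_mul]
      have h := S.sum_blocks (b.filter fun q ↦ S.bl q < s) (fun q ↦ S.Wt E b q) j₀ s
        (fun q ↦ (S.cnt E b q : ℝ) * W b)
        (fun q hq ↦ (mem_filter.1 hq).2)
      rw [Finset.filter_filter] at h
      have h1 : (b.filter fun q ↦ S.bl q < s ∧ (S.Wt E b q ∧ j₀ ≤ S.bl q)) =
          b.filter fun q ↦ (S.Wt E b q ∧ j₀ ≤ S.bl q ∧ S.bl q < s) := by
        ext q; simp only [mem_filter]; tauto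
      rw [h1] at h
      rw [h]
      refine Finset.sum_congr rfl fun j hj ↦ Finset.sum_congr ?_ fun _ _ ↦ rfl
      rw [Finset.filter_filter]
      rw [mem_Ico] at hj
      ext q
      simp only [mem_filter]
      constructor
      · rintro ⟨h1, h2, h3⟩
        exact ⟨h1, by omega, h2, h3⟩
      · rintro ⟨h1, h2, h3, h4⟩
        exact ⟨h1, h3, h4⟩
    have e2 : ∑ j ∈ Ico s (th E s + 1), ∑ q ∈ b with (S.Wt E b q ∧ S.bl q = j),
        (S.cnt E b q : ℝ) * W b =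
        (∑ q ∈ b with (S.Wt E b q ∧ s ≤ S.bl q), (S.cnt E b q : ℝ)) *
          W b := by
      rw [Finset.sum_mul]
      exact (S.sum_blocks b (fun q ↦ S.Wt E b q) s (th E s + 1)
        (fun q ↦ (S.cnt E b q : ℝ) * W b) hbl).symm
    have e3 : ∀ s' : ZMod p, ∑ i ∈ Ico s (th E s + 1),
        ∑ j ∈ Ico s (th E s + 1), (∑ q ∈ b with (S.Wt E b q ∧ S.bl q = j),
          ∑ _P₁ ∈ b with (S.Top b _P₁ ∧ S.bl _P₁ = i),
            S.osc ψ ψ₁ E P b q s' * (W b : ℂ)).re =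
        (∑ q ∈ b with (S.Wt E b q ∧ s ≤ S.bl q), ∑ _P₁ ∈ b with (S.Top b _P₁ ∧ s ≤ S.bl _P₁),
          (S.osc ψ ψ₁ E P b q s').re) * W b := by
      intro s'
      rw [Finset.sum_comm, S.sum_blocks b (fun q ↦ S.Wt E b q) s (th E s + 1) _ hbl,
        Finset.sum_mul]
      refine Finset.sum_congr rfl fun j _ ↦ ?_
      rw [Finset.sum_mul]
      simp only [Complex.re_sum]
      rw [Finset.sum_comm]
      refine Finset.sum_congr rfl fun q _ ↦ ?_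
      rw [S.sum_blocks b (fun P₁ ↦ S.Top b P₁) s (th E s + 1) _ hbl, Finset.sum_mul]
      refine Finset.sum_congr rfl fun i _ ↦ ?_
      rw [Finset.sum_mul]
      refine Finset.sum_congr rfl fun _ _ ↦ ?_
      rw [Complex.re_mul_ofReal]
    rw [e1, e2]
    simp only [e3]
    rw [← Finset.sum_mul]
    have h4 := mul_le_mul_of_nonneg_right h3 he
    nlinarith [h4]
  refine hA.trans ((Finset.sum_le_sum hB).trans ?_)
  rw [Finset.sum_add_distrib, Finset.sum_add_distrib]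
  refine add_le_add (add_le_add ?_ ?_) ?_
  · rw [Finset.sum_comm]
    rfl
  · rw [← Finset.mul_sum, Finset.sum_comm]
    rfl
  · rw [← Finset.mul_sum, Finset.sum_comm]
    refine mul_le_mul_of_nonneg_left ?_ (by positivity)
    refine Finset.sum_le_sum fun s' _ ↦ ?_
    rw [Finset.sum_comm]
    refine Finset.sum_le_sum fun i _ ↦ ?_
    rw [Finset.sum_comm]
    refine Finset.sum_le_sum fun j _ ↦ ?_
    unfold O1v
    rw [← Complex.re_sum]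
    exact Complex.re_le_norm _

theorem O1v_comb (ψ : AddChar k ℂ) (ψ₁ : AddChar (ZMod p) ℂ) (E : ℕ) (P : Finset B)
    (n : ℕ) (a : ℕ → ℝ) (W : Finset B → ℝ) (W' : ℕ → Finset B → ℝ)
    (h : ∀ b, W b = ∑ l ∈ range n, a l * W' l b) (i j : ℕ) (s : ZMod p) :
    O1v S ψ ψ₁ E P W i j s = ∑ l ∈ range n, (a l : ℂ) * O1v S ψ ψ₁ E P (W' l) i j s := by
  classical
  unfold O1v
  simp only [Finset.mul_sum]
  symm
  rw [Finset.sum_comm]
  refine Finset.sum_congr rfl fun b _ ↦ ?_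
  rw [Finset.sum_comm]
  refine Finset.sum_congr rfl fun q _ ↦ ?_
  rw [Finset.sum_comm]
  refine Finset.sum_congr rfl fun P₁ _ ↦ ?_
  symm
  rw [h]
  push_cast
  rw [Finset.mul_sum]
  refine Finset.sum_congr rfl fun l _ ↦ ?_
  ring

theorem lg_mono {X Y : ℝ} (h : X ≤ Y) : lg X ≤ lg Y := by
  unfold lg
  exact Nat.log_mono_right (Nat.floor_le_floor h)

theorem sum_dom {w : ℝ → ℝ} {C' : ℝ} (hC' : ∀ t, 0 ≤ t → w t ≤ C' * Real.exp (-t)) {X : ℝ}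
    (hX : 0 < X) (T : Finset (Finset B)) {M : ℝ}
    (h : ∑ b ∈ T, Real.exp (-(S.nm b / X)) ≤ M) (hC0 : 0 < C') :
    ∑ b ∈ T, w (S.nm b / X) ≤ C' * M := by
  refine le_trans ?_ (mul_le_mul_of_nonneg_left h hC0.le)
  rw [Finset.mul_sum]
  exact Finset.sum_le_sum fun b _ ↦ hC' _ (by positivity)

end steps

theorem w_mt1 : W_MT1 := by
  classical
  have hCNT := Pool.Agent.Helper28.PP.c_cnt
  have hOSC := Pool.Agent.Helper74.PP.c_osc Pool.Agent.Helper83.PP.c_lab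
  have hOSB := Pool.Agent.Helper30.PP.c_osb Pool.Agent.Helper22.PP.c_dec
  have hEX0 := Pool.Agent.Helper44.PP.c_ex0
  have hEX2 := Pool.Agent.Helper87.PP.c_ex2 Pool.Agent.Helper22.PP.c_dec
  have hEX3 := Pool.Agent.Helper61.PP.c_ex3
  have hEX5 := Pool.Agent.Helper33.PP.c_ex5 Pool.Agent.Helper22.PP.c_dec
  have hEX6 := Pool.Agent.Helper8.PP.c_ex6 Pool.Agent.Helper22.PP.c_dec
  have hSM4 := Pool.Agent.Helper47.PP.c_sm4
  intro hCOR p _ B B₀ k U Λ C _ _ _ _ _ _ _ _ _ _ _ S ψ ψ₁ g K hyp w hw ε hε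
  have hyp0 : Hyp₀ S ψ g K := ⟨hyp.one_le, hyp.ψ_ne, hyp.che, hyp.g_one, hyp.g_mono, hyp.ht,
    hyp.mers, hyp.sm, hyp.kum, hyp.bl₁⟩
  obtain ⟨C', hC'0, hC'⟩ := hw.dom
  obtain ⟨n, a, ha⟩ := hw.comb
  set Aw : ℝ := ∑ l ∈ range n, |a l| with hAw
  have hAw0 : 0 ≤ Aw := by positivity
  obtain ⟨K₃, hK₃⟩ := hOSB p B B₀ k U Λ C S ψ ψ₁ g K hyp
  obtain ⟨K₅, hK₅⟩ := hEX2 p B B₀ k U Λ C S ψ ψ₁ g K hyp
  have hK : 1 ≤ K := hyp.one_le
  set E := 2 * K * (K + 1) with hE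
  have hE1 : 1 ≤ E := by
    rw [hE]; nlinarith
  set Q : ℝ := (Fintype.card k : ℝ) with hQ
  have hQ2 : 2 ≤ Q := by
    rw [hQ]; exact_mod_cast Fintype.one_lt_card (α := k)
  set ρ : ℝ := (Fintype.card U / Fintype.card Λ : ℝ) with hρ
  have hρ0 : 0 ≤ ρ := by positivity
  have hp : 2 ≤ (p : ℝ) := by exact_mod_cast (Fact.out : p.Prime).two_le
  set V : ℝ := 5 * C' + 3 + Aw * K * K₃ with hV
  have hV0 : 0 < V := by positivity
  set e : ℝ := ε / V with he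
  have he0 : 0 < e := by positivity
  -- the choice of `j₀`
  obtain ⟨jE, hjE⟩ := le_th_of_large E hE1
  obtain ⟨j5, hj5⟩ := hEX5 p B B₀ k U Λ C S ψ ψ₁ g K hyp E e hE1 he0
  obtain ⟨jc, hjc⟩ := hCOR p B B₀ k U Λ C S ψ g K hyp0 w hw e he0
  obtain ⟨n5, hn5⟩ := exists_nat_ge (K₅ / e : ℝ)
  set j₀ := 2 + jE + j5 + jc + n5 with hj₀
  have hj₀2 : 2 ≤ j₀ := by omega
  have hK5 : (K₅ : ℝ) / j₀ ≤ e := by
    rw [div_le_iff₀ (by positivity)]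
    rw [div_le_iff₀ he0] at hn5
    have : (n5 : ℝ) ≤ j₀ := by exact_mod_cast (by omega : n5 ≤ j₀)
    nlinarith
  have hth : ∀ j, j₀ ≤ j → j ≤ th E j := fun j hj ↦ hjE j (by omega)
  -- the choice of `X₀`
  obtain ⟨L4, hL4⟩ := hSM4 K K₃ e hK he0
  obtain ⟨X0, hX0⟩ := hEX0 p B B₀ k U Λ C S ψ ψ₁ g K hyp j₀ e he0
  obtain ⟨X3, hX3⟩ := hEX3 p B B₀ k U Λ C S ψ ψ₁ g K hyp e he0
  obtain ⟨X6, hX6⟩ := hEX6 p B B₀ k U Λ C S ψ ψ₁ g K hyp E e hE1 he0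
  obtain ⟨Xc, hXc⟩ := hjc j₀ (by omega)
  refine ⟨max (2 ^ (L4 + 9 + j₀ * j₀ + n)) (max X0 (max X3 (max X6 Xc))), fun X hX P ↦ ?_⟩
  have hXp : (2 : ℝ) ^ (L4 + 9 + j₀ * j₀ + n) ≤ X := (le_max_left _ _).trans hX
  have hXX := (le_max_right _ _).trans hX
  have hXX0 : X0 ≤ X := (le_max_left _ _).trans hXX
  have hXY := (le_max_right _ _).trans hXX
  have hXX3 : X3 ≤ X := (le_max_left _ _).trans hXY
  have hXZ := (le_max_right _ _).trans hXY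
  have hXX6 : X6 ≤ X := (le_max_left _ _).trans hXZ
  have hXXc : Xc ≤ X := (le_max_right _ _).trans hXZ
  have hLX := le_lg hXp
  set L := lg X with hL
  set s := Nat.sqrt L with hs
  have hX1 : 1 ≤ X := le_trans (one_le_pow₀ (by norm_num)) hXp
  have hX0' : 0 < X := by linarith
  have hXn : (n : ℝ) ≤ X := by
    have h1 : (n : ℝ) ≤ (2 : ℝ) ^ n := by exact_mod_cast (Nat.lt_two_pow_self (n := n)).le
    have h2 : (2 : ℝ) ^ n ≤ (2 : ℝ) ^ (L4 + 9 + j₀ * j₀ + n) :=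
      pow_le_pow_right₀ (by norm_num) (by omega)
    linarith
  have hj₀s : j₀ ≤ s := by
    rw [hs, Nat.le_sqrt]; omega
  have hgX : 1 ≤ g X := hyp.g_one X
  have hXg : 0 ≤ X * g X := by positivity
  set P' := P.filter fun q ↦ S.bl q ≤ th E s with hP'
  have hP'bl : ∀ q ∈ P', S.bl q ≤ th E s := fun q hq ↦ (mem_filter.1 hq).2
  set Wf : Finset B → ℝ := fun b ↦ w (S.nm b / X) with hWf
  have hWf0 : ∀ b, 0 ≤ Wf b := fun b ↦ hw.nonneg _ (by positivity)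
  -- the exceptional sets
  have b1 := step1w (Λ := Λ) S hCNT E j₀ s hj₀s Wf hWf0 P
  have b6 := sum_dom S hC' hX0' _ (hX6 X hXX6 P) hC'0
  have b0 := sum_dom S hC' hX0' _ (hX0 X hXX0 P) hC'0
  have b2 := sum_dom S hC' hX0' _ ((hK₅ j₀ X P (by omega) hX1).trans
    (mul_le_mul_of_nonneg_right hK5 hXg)) hC'0
  have b3 := sum_dom S hC' hX0' _ (hX3 X hXX3 P) hC'0
  have b5 := sum_dom S hC' hX0' _ (hj5 j₀ (by omega) X hX1 P) hC'0
  -- the good sets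
  have b4 := step4w (Λ := Λ) S hOSC ψ ψ₁ hyp.ψ_ne hyp.ψ₁_ne E j₀ s P' Wf hWf0 hP'bl
    (fun j hj ↦ hth j (by omega)) hj₀s
  obtain ⟨hS1, hS2⟩ := hXc X hXXc P' hP'bl
  set F : ℝ := ∑ b ∈ P'.powerset with S.Fam b, Wf b with hF
  have hS1' : ∑ j ∈ Ico j₀ s, T1v S E P' Wf j ≤ e * (X * g X) := hS1
  have hS2' : ∑ j ∈ Ico s (th E s + 1), T1v S E P' Wf j ≤ ρ * (Q * F) + e * (X * g X) := hS2
  -- the oscillating sums
  have hO : ∀ s' ∈ (univ : Finset (ZMod p)).erase 0, ∑ i ∈ Ico s (th E s + 1),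
      ∑ j ∈ Ico s (th E s + 1), ‖O1v S ψ ψ₁ E P' Wf i j s'‖ ≤
        Aw * K * K₃ * e * (X * g X) := by
    intro s' hs'
    have hs'0 : s' ≠ 0 := (mem_erase.1 hs').1
    have h1 : ∀ i ∈ Ico s (th E s + 1), ∀ j ∈ Ico s (th E s + 1),
        ‖O1v S ψ ψ₁ E P' Wf i j s'‖ ≤ Aw * K * K₃ *
          (((L : ℝ) + 2) ^ K₃ * ((i : ℝ) + j) ^ K *
          (2 : ℝ) ^ (-(min i j : ℝ) / K) * min 1 (2 ^ (L + 1) / 2 ^ (i + j))) * (X * g X) := by
      intro i hi j hj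
      rw [mem_Ico] at hi hj
      rw [O1v_comb S ψ ψ₁ E P' n a Wf
        (fun l b ↦ Real.exp (-(S.nm b / (X / (l + 1))))) (fun b ↦ by
          rw [hWf]
          simp only
          rw [ha]
          refine Finset.sum_congr rfl fun l _ ↦ ?_
          congr 2
          field_simp)]
      have h3 : ∀ l ∈ range n, ‖(a l : ℂ) * O1v S ψ ψ₁ E P'
          (fun b ↦ Real.exp (-(S.nm b / (X / (l + 1))))) i j s'‖ ≤ |a l| * (K * K₃ *
          (((L : ℝ) + 2) ^ K₃ * ((i : ℝ) + j) ^ K *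
          (2 : ℝ) ^ (-(min i j : ℝ) / K) * min 1 (2 ^ (L + 1) / 2 ^ (i + j))) * (X * g X)) := by
        intro l hl
        rw [mem_range] at hl
        rw [norm_mul, Complex.norm_real, Real.norm_eq_abs]
        refine mul_le_mul_of_nonneg_left ?_ (abs_nonneg _)
        have hl1 : (0 : ℝ) < (l : ℝ) + 1 := by positivity
        have hln : (l : ℝ) + 1 ≤ n := by exact_mod_cast hl
        have hY1 : 1 ≤ X / (l + 1) := by
          rw [le_div_iff₀ hl1]; linarith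
        have hYX : X / (l + 1) ≤ X := div_le_self hX0'.le (by linarith [(Nat.cast_nonneg l : (0 : ℝ) ≤ l)])
        have h2 := hK₃ E i j s' (X / (l + 1)) P' (by omega) (by omega) (hth j (by omega)) hs'0 hY1
        refine (show ‖O1v S ψ ψ₁ E P' (fun b ↦ Real.exp (-(S.nm b / (X / (l + 1))))) i j s'‖ ≤ _
          from h2).trans ?_
        have hm := min_bound X (i + j)
        have hm' : min 1 (X / (l + 1) / 2 ^ (i + j)) ≤ min 1 ((2 : ℝ) ^ (L + 1) / 2 ^ (i + j)) := by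
          refine le_trans (min_le_min le_rfl ?_) hm
          gcongr
        have hlg : ((lg (X / (l + 1)) : ℕ) : ℝ) ≤ L := by exact_mod_cast lg_mono hYX
        have hg0 : 0 ≤ g (X / (l + 1)) := by linarith [hyp.g_one (X / (l + 1))]
        have hgg : X / (l + 1) * g (X / (l + 1)) ≤ K * (X * g X) := by
          have h4 := hyp.g_mono _ _ hYX
          calc X / (l + 1) * g (X / (l + 1)) ≤ X * (K * g X) :=
                mul_le_mul hYX h4 hg0 hX0'.le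
            _ = _ := by ring
        have hmin0 : 0 ≤ min 1 (X / (l + 1) / 2 ^ (i + j)) := by
          have : 0 ≤ X / (l + 1) := by positivity
          positivity
        calc (K₃ : ℝ) * (lg (X / (l + 1)) + 2) ^ K₃ * (i + j) ^ K * (2 : ℝ) ^ (-(min i j : ℝ) / K) *
              min 1 (X / (l + 1) / 2 ^ (i + j)) * (X / (l + 1) * g (X / (l + 1)))
            ≤ (K₃ : ℝ) * (L + 2) ^ K₃ * (i + j) ^ K * (2 : ℝ) ^ (-(min i j : ℝ) / K) *
              min 1 (2 ^ (L + 1) / 2 ^ (i + j)) * (K * (X * g X)) := by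
              gcongr
          _ = _ := by ring
      refine (norm_sum_le _ _).trans ((Finset.sum_le_sum h3).trans (le_of_eq ?_))
      rw [← Finset.sum_mul, ← hAw]
      ring
    refine (Finset.sum_le_sum fun i hi ↦ Finset.sum_le_sum fun j hj ↦ h1 i hi j hj).trans ?_
    simp only [← Finset.sum_mul, ← Finset.mul_sum]
    exact mul_le_mul_of_nonneg_right (mul_le_mul_of_nonneg_left
      (hL4 L (by omega) (th E s + 1)) (by positivity)) hXg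
  have hO2 : (1 / p : ℝ) * ∑ s' ∈ (univ : Finset (ZMod p)).erase 0, ∑ i ∈ Ico s (th E s + 1),
        ∑ j ∈ Ico s (th E s + 1), ‖O1v S ψ ψ₁ E P' Wf i j s'‖ ≤
        Aw * K * K₃ * e * (X * g X) := by
    have h1 := Finset.sum_le_sum hO
    rw [Finset.sum_const] at h1
    have hc : ((univ : Finset (ZMod p)).erase 0).card ≤ p := by
      refine (Finset.card_le_card (Finset.erase_subset _ _)).trans ?_
      rw [Finset.card_univ, ZMod.card]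
    have hc' : (((univ : Finset (ZMod p)).erase 0).card : ℝ) ≤ p := by exact_mod_cast hc
    have h0 : 0 ≤ Aw * K * K₃ * e * (X * g X) := by positivity
    rw [nsmul_eq_mul] at h1
    have h2 := h1.trans (mul_le_mul_of_nonneg_right hc' h0)
    rw [one_div, inv_mul_le_iff₀ (by linarith)]
    exact h2
  -- conclusion for the good sets
  set G : ℝ := ∑ b ∈ P'.powerset with (S.Fam b ∧ (∃ P₁, S.Top b P₁ ∧ s ≤ S.bl P₁) ∧
        ∃ q, S.Wt E b q ∧ j₀ ≤ S.bl q ∧ Fintype.card k - 1 ≤ S.cnt₂ E b q),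
        Wf b with hG
  have hF0 : 0 ≤ F := Finset.sum_nonneg fun b _ ↦ hWf0 b
  have hp1 : (1 / p : ℝ) ≤ 1 := by
    rw [div_le_one (by linarith)]; linarith
  have hp0 : (0 : ℝ) ≤ 1 / p := by positivity
  have hgood : (Q - 1) * G ≤ (ρ * (Q / p)) * F +
      (2 + Aw * K * K₃) * e * (X * g X) := by
    have h2 := mul_le_mul_of_nonneg_left hS2' hp0
    have h3 : (1 / p : ℝ) * (e * (X * g X)) ≤ 1 * (e * (X * g X)) :=
      mul_le_mul_of_nonneg_right hp1 (by positivity)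
    have h4 : (1 / p : ℝ) * (ρ * (Q * F) + e * (X * g X)) =
        (ρ * (Q / p)) * F + (1 / p : ℝ) * (e * (X * g X)) := by
      field_simp
    rw [h4] at h2
    have h5 : (Q - 1) * G ≤ _ := b4
    refine h5.trans ((add_le_add (add_le_add hS1' h2) hO2).trans ?_)
    rw [one_mul] at h3
    have e1 : (2 + Aw * K * K₃) * e * (X * g X) = e * (X * g X) + e * (X * g X) +
        Aw * K * K₃ * e * (X * g X) := by ring
    rw [e1]
    linarith [h3]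
  have hG2 : G ≤ ρ * (Q / (p * (Q - 1))) * F +
      (2 + Aw * K * K₃) * e * (X * g X) := by
    have hQ1 : 0 < Q - 1 := by linarith
    have h0 : 0 ≤ (2 + Aw * K * K₃) * e * (X * g X) := by positivity
    have h1 : G ≤ ((ρ * (Q / p)) * F +
      (2 + Aw * K * K₃) * e * (X * g X)) / (Q - 1) := by
      rw [le_div_iff₀ hQ1]; linarith
    refine h1.trans ?_
    rw [add_div]
    refine add_le_add (le_of_eq ?_) (div_le_self h0 (by linarith))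
    field_simp
  have hFF : F ≤ ∑ b ∈ P.powerset with S.Fam b, Wf b := by
    refine Finset.sum_le_sum_of_subset_of_nonneg ?_ fun b _ _ ↦ hWf0 b
    intro b hb
    rw [mem_filter, mem_powerset] at hb ⊢
    exact ⟨hb.1.trans (Finset.filter_subset _ _), hb.2⟩
  have hθ : 0 ≤ ρ * (Q / (p * (Q - 1))) := by
    have hQ1 : 0 < Q - 1 := by linarith
    positivity
  have hG3 := hG2.trans (add_le_add (mul_le_mul_of_nonneg_left hFF hθ) le_rfl)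
  have hWe : V * e = ε := by
    rw [he]; field_simp
  have hfinal : (5 * C' + (2 + Aw * K * K₃)) * e * (X * g X) ≤
      ε * (X * g X) := by
    rw [← hWe]
    refine mul_le_mul_of_nonneg_right (mul_le_mul_of_nonneg_right ?_ he0.le) hXg
    rw [hV]; linarith
  refine b1.trans ?_
  have b1' := add_le_add (add_le_add (add_le_add (add_le_add (add_le_add b6 b0) b2) b3) b5) hG3
  refine b1'.trans ?_
  have e1 : (5 * C' + (2 + Aw * K * K₃)) * e * (X * g X) = C' * (e * (X * g X)) +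
      C' * (e * (X * g X)) + C' * (e * (X * g X)) + C' * (e * (X * g X)) +
      C' * (e * (X * g X)) + (2 + Aw * K * K₃) * e * (X * g X) := by ring
  rw [e1] at hfinal
  linarith [hfinal]

end Pool.Agent.Helper91.ND
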